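import Pool.Agent.Hhelper87.Crit.Main

/-!
# Critical sets of the iterates of a dominant meromorphic self-map

Let `X` be a compact complex manifold of dimension `k` (in particular, a compact Kähler manifold)
and `f : X ⇢ X` a dominant meromorphic map.  If `π₁(C_f)` has codimension `≥ p` then `π₁(C_{f^n})`
has codimension `≥ p` for every `n ≥ 1`.
-/

namespace Pool.Agent.Results.MP_0e2c99_an.CriticalIterates

open Module Filter Topology Set
open scoped Manifold ContDiff
open Pool.Agent.Hhelper87.Crit

/-- **Positive answer to Q1.** For every compact complex manifold `X` of dimension `k`, every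
dominant meromorphic map `f : X ⇢ X`, every `p` and every `n ≥ 1`: if `C` is the critical set of
(the graph of) `f`, `C'` is the critical set of (the graph of) `f^n` and `codim π₁(C) ≥ p` then
`codim π₁(C') ≥ p`. -/
theorem result {k : ℕ} {X : Type*} [TopologicalSpace X] [CompactSpace X] [T2Space X]
    [ChartedSpace (EuclideanSpace ℂ (Fin k)) X]
    [IsManifold 𝓘(ℂ, EuclideanSpace ℂ (Fin k)) ω X]
    (f : DomMeroMap (EuclideanSpace ℂ (Fin k)) X) (p : ℕ)
    (C : Set (X × X)) (hC : IsCriticalSet (E := EuclideanSpace ℂ (Fin k)) f.graph C)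
    (hp : CodimGE (EuclideanSpace ℂ (Fin k)) (Prod.fst '' C) p)
    (n : ℕ) (hn : 1 ≤ n)
    (C' : Set (X × X)) (hC' : IsCriticalSet (E := EuclideanSpace ℂ (Fin k)) (f.iterGraph n) C') :
    CodimGE (EuclideanSpace ℂ (Fin k)) (Prod.fst '' C') p := by
  rw [hC'.2]
  exact codim_iterate f hC.1 hC.2.ge hp n hn

end Pool.Agent.Results.MP_0e2c99_an.CriticalIterates
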